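import Mathlib

/-!
# The well-orders of type `ω₁` and `ω₂`, stationary sets and Fodor's lemma on `ω₂`

Everything is phrased combinatorially: `W` is the well-order of type `ω₁`, `K` the well-order of
type `ω₂`; a subset of `K` is `Stat`ionary if it contains a closure point of every function
`K → K`.
-/

open Set Cardinal

namespace Pool.Agent.Helper78.Om2

/-- The well-order `ω₁`. -/
abbrev W : Type := (Cardinal.aleph 1).ord.ToType

/-- The well-order `ω₂`. -/
abbrev K : Type := (Cardinal.aleph 2).ord.ToType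

lemma mk_W : #W = ℵ₁ := by simp [W]

lemma mk_K : #K = ℵ_ 2 := by simp [K]

instance : Nonempty W := by
  rw [← Cardinal.mk_ne_zero_iff, mk_W]
  exact (aleph_pos 1).ne'

instance : Nonempty K := by
  rw [← Cardinal.mk_ne_zero_iff, mk_K]
  exact (aleph_pos 2).ne'

lemma aleph_two_eq : (ℵ_ 2 : Cardinal.{0}) = Order.succ ℵ₁ := by
  rw [succ_aleph]
  congr 1
  norm_num

lemma aleph_one_eq : (ℵ₁ : Cardinal.{0}) = Order.succ ℵ₀ := by
  rw [← aleph_zero, succ_aleph]
  congr 1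
  simp

lemma mk_Iio_K_le (b : K) : #(Iio b) ≤ ℵ₁ := by
  have h : #(Iio b) < #K := mk_Iio_lt b (by simp)
  exact Order.lt_succ_iff.1 ((h.trans_eq mk_K).trans_eq aleph_two_eq)

lemma mk_Iio_W_le (b : W) : #(Iio b) ≤ ℵ₀ := by
  have h : #(Iio b) < #W := mk_Iio_lt b (by simp)
  exact Order.lt_succ_iff.1 ((h.trans_eq mk_W).trans_eq aleph_one_eq)

lemma countable_Iio_W (b : W) : (Iio b).Countable := by
  rw [← Set.countable_coe_iff, ← Cardinal.mk_le_aleph0_iff]
  exact mk_Iio_W_le b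

lemma countable_Iic_W (b : W) : (Iic b).Countable := by
  rw [← Set.Iio_insert]
  exact (countable_Iio_W b).insert b

lemma mk_Iic_K_le (b : K) : #(Iic b) ≤ ℵ₁ := by
  rw [← Set.Iio_insert]
  refine (Cardinal.mk_insert_le).trans ?_
  refine (add_le_add (mk_Iio_K_le b) (one_le_aleph0.trans (aleph0_le_aleph 1))).trans ?_
  rw [Cardinal.add_eq_self (aleph0_le_aleph 1)]

lemma K_bdd {ι : Type} (hι : #ι ≤ ℵ₁) (f : ι → K) : ∃ b, ∀ w, f w < b := by
  by_contra hcon
  push Not at hcon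
  have hU : (Set.univ : Set K) = ⋃ w, Iic (f w) := by
    ext b
    simp only [mem_univ, mem_iUnion, mem_Iic, true_iff]
    exact hcon b
  have h1 : #(Set.univ : Set K) ≤ ℵ₁ := by
    rw [hU]
    refine (Cardinal.mk_iUnion_le _).trans ?_
    refine (mul_le_mul' hι (ciSup_le' fun w => mk_Iic_K_le (f w))).trans ?_
    rw [Cardinal.mul_eq_self (aleph0_le_aleph 1)]
  rw [Cardinal.mk_univ, mk_K, aleph_two_eq] at h1
  exact absurd h1 (not_le.2 (Order.lt_succ _))

lemma W_bdd {ι : Type} [Countable ι] (f : ι → W) : ∃ b, ∀ n, f n < b := by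
  by_contra hcon
  push Not at hcon
  have hU : (Set.univ : Set W) = ⋃ w, Iic (f w) := by
    ext b
    simp only [mem_univ, mem_iUnion, mem_Iic, true_iff]
    exact hcon b
  have h1 : (Set.univ : Set W).Countable := by
    rw [hU]
    exact Set.countable_iUnion fun n => countable_Iic_W (f n)
  rw [← Set.countable_coe_iff, ← Cardinal.mk_le_aleph0_iff, Cardinal.mk_univ, mk_W,
    aleph_one_eq] at h1
  exact absurd h1 (not_le.2 (Order.lt_succ _))

/-- Any subset of `K` of size at most `ℵ₁` is strictly bounded. -/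
lemma K_bdd_set {A : Set K} (hA : #A ≤ ℵ₁) : ∃ b, ∀ a ∈ A, a < b := by
  obtain ⟨b, hb⟩ := K_bdd hA (fun a : A => (a : K))
  exact ⟨b, fun a ha => hb ⟨a, ha⟩⟩

lemma K_bdd_countable {A : Set K} (hA : A.Countable) : ∃ b, ∀ a ∈ A, a < b := by
  apply K_bdd_set
  exact (Cardinal.mk_le_aleph0_iff.2 hA.to_subtype).trans (aleph0_le_aleph 1)

lemma W_bdd_set {A : Set W} (hA : A.Countable) : ∃ b, ∀ a ∈ A, a < b := by
  have := hA.to_subtype
  obtain ⟨b, hb⟩ := W_bdd (fun a : A => (a : W))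
  exact ⟨b, fun a ha => hb ⟨a, ha⟩⟩

instance : NoMaxOrder K where
  exists_gt a := by
    obtain ⟨b, hb⟩ := K_bdd_countable (Set.countable_singleton a)
    exact ⟨b, hb a rfl⟩

instance : NoMaxOrder W where
  exists_gt a := by
    obtain ⟨b, hb⟩ := W_bdd_set (Set.countable_singleton a)
    exact ⟨b, hb a rfl⟩

lemma exists_e (b : K) : ∃ e : K → W, InjOn e (Iio b) := by
  have h : #(Iio b) ≤ #W := by rw [mk_W]; exact mk_Iio_K_le b
  obtain ⟨g⟩ := (Cardinal.le_def _ _).1 h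
  classical
  refine ⟨fun x => if hx : x ∈ Iio b then g ⟨x, hx⟩ else Classical.arbitrary W, ?_⟩
  intro x hx y hy hxy
  simp only [dif_pos hx, dif_pos hy] at hxy
  exact congrArg Subtype.val (g.injective hxy)

/-- A choice of functions `e b : K → W`, injective on `Iio b`. -/
noncomputable def e (b : K) : K → W := (exists_e b).choose

lemma e_inj (b : K) : InjOn (e b) (Iio b) := (exists_e b).choose_spec

lemma exists_eps (b : W) : ∃ e : W → ℕ, InjOn e (Iio b) := by
  have h := countable_Iio_W b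
  have := h.to_subtype
  obtain ⟨g, hg⟩ := Countable.exists_injective_nat (Iio b)
  classical
  refine ⟨fun x => if hx : x ∈ Iio b then g ⟨x, hx⟩ else 0, ?_⟩
  intro x hx y hy hxy
  simp only [dif_pos hx, dif_pos hy] at hxy
  exact congrArg Subtype.val (hg hxy)

/-- A choice of functions `eps b : W → ℕ`, injective on `Iio b`. -/
noncomputable def eps (b : W) : W → ℕ := (exists_eps b).choose

lemma eps_inj (b : W) : InjOn (eps b) (Iio b) := (exists_eps b).choose_spec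

/-- Points of uncountable cofinality: every countable set below is bounded below. -/
def S : Set K := {δ | ∀ A : Set K, A.Countable → (∀ a ∈ A, a < δ) → ∃ η < δ, ∀ a ∈ A, a < η}

/-- Stationary sets. -/
def Stat (T : Set K) : Prop := ∀ F : K → K, ∃ δ ∈ T, (∃ i, i < δ) ∧ ∀ i < δ, F i < δ

lemma Stat.mono {T T' : Set K} (h : Stat T) (hT : T ⊆ T') : Stat T' := fun F => by
  obtain ⟨δ, hδ, h2⟩ := h F
  exact ⟨δ, hT hδ, h2⟩

/-- The set of closure points of a function may be intersected with a stationary set. -/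
lemma Stat.inter_closed {T : Set K} (h : Stat T) (G : K → K) :
    Stat {δ ∈ T | ∀ i < δ, G i < δ} := fun F => by
  obtain ⟨δ, hδ, h0, h2⟩ := h (fun i => max (F i) (G i))
  exact ⟨δ, ⟨hδ, fun i hi => (le_max_right _ _).trans_lt (h2 i hi)⟩, h0,
    fun i hi => (le_max_left _ _).trans_lt (h2 i hi)⟩

/-- A stationary set contains points beyond any given point. -/
lemma Stat.inter_gt {T : Set K} (h : Stat T) (a : K) : Stat {δ ∈ T | a < δ} := fun F => by
  obtain ⟨δ, hδ, ⟨i, hi⟩, h2⟩ := h (fun i => max (F i) a)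
  exact ⟨δ, ⟨hδ, (le_max_right _ _).trans_lt (h2 i hi)⟩, ⟨i, hi⟩,
    fun i hi => (le_max_left _ _).trans_lt (h2 i hi)⟩

lemma Stat.exists_gt {T : Set K} (h : Stat T) (a : K) : ∃ δ ∈ T, a < δ := by
  obtain ⟨δ, hδ, -⟩ := (h.inter_gt a) id
  exact ⟨δ, hδ.1, hδ.2⟩

/-- If a stationary set is covered by at most `ℵ₁` sets, one of them is stationary. -/
lemma Stat.exists_of_iUnion {ι : Type} (hι : #ι ≤ ℵ₁) {T : Set K} (h : Stat T)
    (A : ι → Set K) (hA : T ⊆ ⋃ x, A x) : ∃ x, Stat (T ∩ A x) := by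
  by_contra hcon
  push Not at hcon
  simp only [Stat] at hcon
  push Not at hcon
  choose F hF using hcon
  have hb : ∀ i : K, ∃ b, ∀ x, F x i < b := fun i => K_bdd hι (fun x => F x i)
  choose G hG using hb
  obtain ⟨δ, hδ, h0, h2⟩ := h G
  obtain ⟨x, hx⟩ := mem_iUnion.1 (hA hδ)
  obtain ⟨i, hi, h3⟩ := hF x δ ⟨hδ, hx⟩ h0
  exact absurd (h3.trans_lt (hG i x)) (not_lt.2 (h2 i hi).le)

/-- A function with few values is constant on a stationary subset. -/
lemma Stat.exists_const {Θ : Type} (hΘ : #Θ ≤ ℵ₁) {T : Set K} (h : Stat T) (τ : K → Θ) :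
    ∃ t, Stat {i ∈ T | τ i = t} := by
  obtain ⟨t, ht⟩ := h.exists_of_iUnion hΘ (fun t => {i | τ i = t})
    (fun i _ => mem_iUnion.2 ⟨τ i, rfl⟩)
  exact ⟨t, ht⟩

/-- Fodor's lemma. -/
lemma Stat.fodor {T : Set K} (h : Stat T) (g : K → K) (hg : ∀ i ∈ T, g i < i) :
    ∃ ρ, Stat {i ∈ T | g i = ρ} := by
  by_contra hcon
  push Not at hcon
  simp only [Stat] at hcon
  push Not at hcon
  choose F hF using hcon
  have hb : ∀ i : K, ∃ b, ∀ x : Iic i × Iic i, F x.1 x.2 < b := fun i => by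
    apply K_bdd
    rw [Cardinal.mk_prod, Cardinal.lift_id]
    refine (mul_le_mul' (mk_Iic_K_le i) (mk_Iic_K_le i)).trans ?_
    rw [Cardinal.mul_eq_self (aleph0_le_aleph 1)]
  choose G hG using hb
  obtain ⟨δ, hδ, h0, h2⟩ := h G
  obtain ⟨i, hi, h3⟩ := hF (g δ) δ ⟨hδ, rfl⟩ h0
  have hm : max (g δ) i < δ := max_lt (hg δ hδ) hi
  have h4 := hG (max (g δ) i) (⟨g δ, mem_Iic.2 (le_max_left (g δ) i)⟩,
    ⟨i, mem_Iic.2 (le_max_right (g δ) i)⟩)
  exact absurd (h3.trans_lt h4) (not_lt.2 (h2 _ hm).le)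

/-- `S` (the points of cofinality `ω₁`) is stationary. -/
lemma stat_S : Stat S := by
  intro F
  -- an increasing `ω₁`-sequence
  have step : ∀ (ξ : W) (g : Iio ξ → K), ∃ b, ∀ η : Iio ξ, g η < b ∧ ∀ i ≤ g η, F i < b := by
    intro ξ g
    obtain ⟨b, hb⟩ := K_bdd (ι := Σ η : Iio ξ, Option (Iic (g η))) (by
      rw [Cardinal.mk_sigma]
      refine (Cardinal.sum_le_mk_mul_iSup _).trans ?_
      refine (mul_le_mul' ((mk_Iio_W_le ξ).trans (aleph0_le_aleph 1))
        (ciSup_le' fun η => ?_ : _ ≤ ℵ₁)).trans ?_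
      · rw [Cardinal.mk_option]
        refine (add_le_add (mk_Iic_K_le _) (one_le_aleph0.trans (aleph0_le_aleph 1))).trans ?_
        rw [Cardinal.add_eq_self (aleph0_le_aleph 1)]
      · rw [Cardinal.mul_eq_self (aleph0_le_aleph 1)])
      (fun p => match p.2 with
        | none => g p.1
        | some i => F i)
    exact ⟨b, fun η => ⟨hb ⟨η, none⟩, fun i hi => hb ⟨η, some ⟨i, hi⟩⟩⟩⟩
  choose nxt hnxt using step
  let g : W → K := (wellFounded_lt (α := W)).fix (fun ξ r => nxt ξ (fun η => r η.1 η.2))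
  have hgdef : ∀ ξ, g ξ = nxt ξ (fun η => g η.1) := fun ξ =>
    (wellFounded_lt (α := W)).fix_eq _ ξ
  have hg : ∀ ξ, ∀ η < ξ, g η < g ξ ∧ ∀ i ≤ g η, F i < g ξ := fun ξ η hη => by
    rw [hgdef ξ]
    exact hnxt ξ (fun η => g η.1) ⟨η, hη⟩
  -- the supremum
  obtain ⟨b, hb⟩ := K_bdd (ι := W) mk_W.le g
  have hne : {x : K | ∀ ξ, g ξ < x}.Nonempty := ⟨b, hb⟩
  let δ := (wellFounded_lt (α := K)).min _ hne
  have hδ1 : ∀ ξ, g ξ < δ := (wellFounded_lt (α := K)).min_mem _ hne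
  have hδ2 : ∀ x, x < δ → ∃ ξ, x ≤ g ξ := fun x hx => by
    by_contra hcon
    push Not at hcon
    exact (wellFounded_lt (α := K)).not_lt_min {x : K | ∀ ξ, g ξ < x} hcon hx
  refine ⟨δ, ?_, ⟨g (Classical.arbitrary W), hδ1 _⟩, ?_⟩
  · intro A hA hAδ
    have hc := hA.to_subtype
    have h1 : ∀ a : A, ∃ ξ, (a : K) ≤ g ξ := fun a => hδ2 a (hAδ a a.2)
    choose z hz using h1
    obtain ⟨c, hc⟩ := W_bdd z
    exact ⟨g c, hδ1 c, fun a ha => (hz ⟨a, ha⟩).trans_lt (hg c _ (hc ⟨a, ha⟩)).1⟩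
  · intro i hi
    obtain ⟨ξ, hξ⟩ := hδ2 i hi
    obtain ⟨ξ', hξ'⟩ := exists_gt ξ
    exact ((hg ξ' ξ hξ').2 i hξ).trans (hδ1 ξ')

end Pool.Agent.Helper78.Om2
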