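import Mathlib
import Pool.Agent.Helper78.Om2.Basic

/-!
# Walks on `ω₂` along injections into `ω₁`, and a strong colouring of pairs
-/

open Set Cardinal

namespace Pool.Agent.Helper78.Om2

/-- `ω₁` many pairwise disjoint stationary subsets of `S` (Ulam). -/
lemma exists_split : ∃ h : K → W, ∀ w, Stat {δ ∈ S | h δ = w} := by
  have h1 : ∀ ν : K, ∃ ξ : W, Stat {δ ∈ {δ ∈ S | ν < δ} | e δ ν = ξ} := fun ν =>
    (stat_S.inter_gt ν).exists_const mk_W.le (fun δ => e δ ν)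
  choose x hx using h1
  obtain ⟨ξ, hξ⟩ := (stat_S).exists_const mk_W.le x
  have hA : ℵ₁ ≤ #{i ∈ S | x i = ξ} := by
    by_contra hcon
    push Not at hcon
    obtain ⟨b, hb⟩ := K_bdd_set (A := {i ∈ S | x i = ξ}) hcon.le
    obtain ⟨δ, hδ, h2⟩ := hξ.exists_gt b
    exact absurd (hb δ hδ) (not_lt.2 h2.le)
  rw [← mk_W] at hA
  obtain ⟨j⟩ := (Cardinal.le_def _ _).1 hA
  classical
  refine ⟨fun δ => if H : ∃ w, (j w : K) < δ ∧ e δ (j w) = ξ then H.choose
    else Classical.arbitrary W, fun w => ?_⟩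
  refine (hx (j w)).mono ?_
  rintro δ ⟨⟨hδS, hδ⟩, h3⟩
  have h4 : x (j w) = ξ := (j w).2.2
  rw [h4] at h3
  have H : ∃ w, (j w : K) < δ ∧ e δ (j w) = ξ := ⟨w, hδ, h3⟩
  refine ⟨hδS, ?_⟩
  show (if H : ∃ w, (j w : K) < δ ∧ e δ (j w) = ξ then H.choose
    else Classical.arbitrary W) = w
  rw [dif_pos H]
  have h5 := H.choose_spec
  have h6 : (j H.choose : K) = j w := e_inj δ h5.1 hδ (h5.2.trans h3.symm)
  exact j.injective (Subtype.ext h6)

/-- The next step of the walk from `β` to `γ`. -/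
noncomputable def step (γ β : K) : K :=
  if h : γ < β then Function.argminOn (e β) (Ico γ β) ⟨γ, le_rfl, h⟩ else γ

lemma step_mem {γ β : K} (h : γ < β) : γ ≤ step γ β ∧ step γ β < β := by
  rw [step, dif_pos h]
  exact Function.argminOn_mem (e β) (Ico γ β) ⟨γ, le_rfl, h⟩

lemma step_min {γ β : K} {ξ : K} (h1 : γ ≤ ξ) (h2 : ξ < β) : e β (step γ β) ≤ e β ξ := by
  rw [step, dif_pos (h1.trans_lt h2)]
  exact Function.argminOn_le (e β) (Ico γ β) ⟨h1, h2⟩

lemma step_eq {γ β : K} {ξ : K} (h1 : γ ≤ ξ) (h2 : ξ < β)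
    (h3 : ∀ x, γ ≤ x → x < β → e β ξ ≤ e β x) : step γ β = ξ := by
  have h := step_mem (h1.trans_lt h2)
  exact e_inj β h.2 h2 (le_antisymm (step_min h1 h2) (h3 _ h.1 h.2))

/-- The state of the scan: current maximum, best weight, best node. -/
abbrev St : Type := W × ℕ × K

/-- Update of the state at the node `β` with entry `x`. -/
noncomputable def upd (σ : St) (β : K) (x : W) : St :=
  if σ.1 < x then (if σ.2.1 < eps x σ.1 then (x, eps x σ.1, β) else (x, σ.2.1, σ.2.2)) else σ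

/-- Scan the walk from `β` to `γ`. -/
noncomputable def scan (γ β : K) (σ : St) : St :=
  if _h : γ < β then scan γ (step γ β) (upd σ β (e β (step γ β))) else σ
termination_by β
decreasing_by exact (step_mem _h).2

lemma scan_self (γ : K) (σ : St) : scan γ γ σ = σ := by
  rw [scan, dif_neg (lt_irrefl γ)]

lemma scan_lt {γ β : K} (h : γ < β) (σ : St) :
    scan γ β σ = scan γ (step γ β) (upd σ β (e β (step γ β))) := by
  rw [scan, dif_pos h]

lemma upd_fst_ge (σ : St) (β : K) (x : W) : σ.1 ≤ (upd σ β x).1 ∧ x ≤ (upd σ β x).1 := by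
  unfold upd
  split_ifs with h1 h2
  · exact ⟨h1.le, le_rfl⟩
  · exact ⟨h1.le, le_rfl⟩
  · exact ⟨le_rfl, not_lt.1 h1⟩

lemma upd_snd_ge (σ : St) (β : K) (x : W) : σ.2.1 ≤ (upd σ β x).2.1 := by
  unfold upd
  split_ifs with h1 h2
  · exact h2.le
  · exact le_rfl
  · exact le_rfl

lemma scan_ge (γ : K) : ∀ (β : K) (σ : St), σ.1 ≤ (scan γ β σ).1 ∧ σ.2.1 ≤ (scan γ β σ).2.1 := by
  intro β
  induction β using WellFoundedLT.induction with
  | ind β ih =>
    intro σ
    by_cases h : γ < β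
    · rw [scan_lt h]
      have h1 := ih _ (step_mem h).2 (upd σ β (e β (step γ β)))
      exact ⟨(upd_fst_ge _ _ _).1.trans h1.1, (upd_snd_ge _ _ _).trans h1.2⟩
    · rw [scan, dif_neg h]
      exact ⟨le_rfl, le_rfl⟩

lemma countable_e (β : K) (θ : W) : {ξ | ξ < β ∧ e β ξ ≤ θ}.Countable :=
  Set.MapsTo.countable_of_injOn (f := e β) (t := Iic θ) (fun _ h => h.2)
    ((e_inj β).mono fun _ h => h.1) (countable_Iic_W θ)

/-- For fixed `β` and `θ` only countably many `γ` have a walk with all entries at most `θ`. -/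
lemma countable_scan (θ : W) : ∀ β : K, {γ | γ ≤ β ∧ ∃ σ : St, (scan γ β σ).1 ≤ θ}.Countable := by
  intro β
  induction β using WellFoundedLT.induction with
  | ind β ih =>
    have hc := countable_e β θ
    have hsub : {γ | γ ≤ β ∧ ∃ σ : St, (scan γ β σ).1 ≤ θ} ⊆
        {β} ∪ ⋃ ξ ∈ {ξ | ξ < β ∧ e β ξ ≤ θ}, {γ | γ ≤ ξ ∧ ∃ σ : St, (scan γ ξ σ).1 ≤ θ} := by
      rintro γ ⟨hγ, σ, hσ⟩
      rcases hγ.eq_or_lt with rfl | hγ
      · exact Or.inl rfl
      · right
        rw [scan_lt hγ] at hσ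
        simp only [mem_iUnion]
        refine ⟨step γ β, ⟨(step_mem hγ).2, ?_⟩, (step_mem hγ).1, _, hσ⟩
        exact ((upd_fst_ge σ β _).2.trans (scan_ge γ _ _).1).trans hσ
    refine Set.Countable.mono hsub ((countable_singleton β).union ?_)
    exact hc.biUnion fun ξ hξ => ih ξ hξ.1

/-- For `δ ∈ S` below `β`, the walks from `β` to points close to `δ` pass through `δ`. -/
lemma scan_through {δ : K} (hδ : δ ∈ S) (hbot : ∃ i, i < δ) : ∀ β : K, δ ≤ β →
    ∃ η < δ, ∀ γ, η < γ → γ < δ → ∀ σ, scan γ β σ = scan γ δ (scan δ β σ) := by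
  intro β
  induction β using WellFoundedLT.induction with
  | ind β ih =>
    intro hβ
    rcases hβ.eq_or_lt with rfl | hβ
    · obtain ⟨i, hi⟩ := hbot
      exact ⟨i, hi, fun γ _ _ σ => by rw [scan_self]⟩
    · obtain ⟨η₂, hη₂, h2⟩ := ih _ (step_mem hβ).2 (step_mem hβ).1
      have hsub : {ξ | ξ < δ ∧ e β ξ ≤ e β (step δ β)} ⊆
          {ξ | ξ < β ∧ e β ξ ≤ e β (step δ β)} := fun ξ h => ⟨h.1.trans hβ, h.2⟩
      obtain ⟨η₁, hη₁, h1⟩ := hδ {ξ | ξ < δ ∧ e β ξ ≤ e β (step δ β)}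
        ((countable_e β (e β (step δ β))).mono hsub) (fun a h => h.1)
      refine ⟨max η₁ η₂, max_lt hη₁ hη₂, fun γ hγ hγδ σ => ?_⟩
      have hs : step γ β = step δ β := by
        refine step_eq (hγδ.le.trans (step_mem hβ).1) (step_mem hβ).2 fun x hx hxβ => ?_
        rcases lt_or_ge x δ with h | h
        · by_contra hcon
          have := h1 x ⟨h, (not_le.1 hcon).le⟩
          exact absurd (this.trans ((le_max_left _ _).trans_lt hγ)) (not_lt.2 hx)
        · exact step_min h hxβ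
      rw [scan_lt (hγδ.trans hβ), scan_lt hβ, hs,
        h2 γ ((le_max_right _ _).trans_lt hγ) hγδ]

/-- If the best weight of the remaining scan is at most the current best weight, the node stays. -/
lemma scan_stable (γ : K) : ∀ (β : K) (M : W) (w w₀ : ℕ) (N N₀ : K), w₀ ≤ w →
    (scan γ β (M, w₀, N₀)).2.1 ≤ w → (scan γ β (M, w, N)).2.2 = N := by
  intro β
  induction β using WellFoundedLT.induction with
  | ind β ih =>
    intro M w w₀ N N₀ hw hsc
    by_cases h : γ < β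
    · rw [scan_lt h] at hsc ⊢
      set x := e β (step γ β)
      have hmono := (scan_ge γ (step γ β) (upd (M, w₀, N₀) β x)).2.trans hsc
      unfold upd at hsc hmono ⊢
      simp only at hsc hmono ⊢
      by_cases h1 : M < x
      · simp only [if_pos h1] at hsc hmono ⊢
        by_cases h2 : w₀ < eps x M
        · simp only [if_pos h2] at hsc hmono
          rw [if_neg (not_lt.2 hmono)]
          exact ih _ (step_mem h).2 _ _ _ _ _ hmono hsc
        · simp only [if_neg h2] at hsc hmono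
          rw [if_neg (not_lt.2 ((not_lt.1 h2).trans hw))]
          exact ih _ (step_mem h).2 _ _ _ _ _ hw hsc
      · simp only [if_neg h1] at hsc ⊢
        exact ih _ (step_mem h).2 _ _ _ _ _ hw hsc
    · rw [scan, dif_neg h]

/-- The least element of `W`. -/
noncomputable def W0 : W := (wellFounded_lt (α := W)).min Set.univ Set.univ_nonempty

/-- The node at which the weight of consecutive records is maximal. -/
noncomputable def node (γ β : K) : K := (scan γ β (W0, 0, β)).2.2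

lemma W0_le (w : W) : W0 ≤ w :=
  not_lt.1 ((wellFounded_lt (α := W)).not_lt_min Set.univ (mem_univ w))

/-- The maximal entry of the walk from `β` to `δ`. -/
noncomputable def rho (δ β : K) : W := (scan δ β (W0, 0, β)).1

/-- The best weight of the walk from `β` to `δ`. -/
noncomputable def wt (δ β : K) : ℕ := (scan δ β (W0, 0, β)).2.1

lemma unbounded_fiber (n : W → ℕ) : ∃ m, ∀ b, ∃ θ, b < θ ∧ n θ = m := by
  by_contra hcon
  push Not at hcon
  choose b hb using hcon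
  obtain ⟨c, hc⟩ := W_bdd b
  exact hb (n c) c (hc _) rfl

lemma aleph_one_le_of_not_countable {A : Set K} (h : ¬ A.Countable) : ℵ₁ ≤ #A := by
  refine aleph_one_eq.trans_le (Order.succ_le_of_lt ?_)
  by_contra h2
  exact h (Set.countable_coe_iff.1 (Cardinal.mk_le_aleph0_iff.1 (not_lt.1 h2)))

/-- The main combinatorial property of `node`. -/
theorem exists_node {T : Set K} (hT : ∀ a, ∃ i ∈ T, a < i) (B : K → Finset K)
    (hB : ∀ i ∈ T, ∀ β ∈ B i, i ≤ β) :
    ∃ δ₀, ∀ δ ∈ S, δ₀ < δ → ∃ η < δ, ∃ T₀ : Set K, T₀.Countable ∧ T₀ ⊆ T ∧ (∀ i ∈ T₀, δ < i) ∧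
      ∀ A : Finset K, (∀ γ ∈ A, η < γ ∧ γ < δ) →
        ∃ i ∈ T₀, ∀ γ ∈ A, ∀ β ∈ B i, node γ β = δ := by
  classical
  -- the bad sets are countable
  have hΔ : ∀ θ : W, {δ : K | ∀ i ∈ T, δ < i → ∃ β ∈ B i, rho δ β ≤ θ}.Countable := by
    intro θ
    by_contra hcon
    have h1 := aleph_one_le_of_not_countable hcon
    obtain ⟨A, hA, hAc⟩ := Cardinal.le_mk_iff_exists_subset.1 h1
    obtain ⟨b, hb⟩ := K_bdd_set hAc.le
    obtain ⟨i, hi, hbi⟩ := hT b
    have hsub : A ⊆ ⋃ β ∈ B i, {γ | γ ≤ β ∧ ∃ σ : St, (scan γ β σ).1 ≤ θ} := by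
      intro δ hδ
      obtain ⟨β, hβ, h3⟩ := hA hδ i hi ((hb δ hδ).trans hbi)
      simp only [mem_iUnion]
      exact ⟨β, hβ, ((hb δ hδ).trans hbi).le.trans (hB i hi β hβ), _, h3⟩
    have hc : A.Countable := Set.Countable.mono hsub
      ((Finset.countable_toSet (B i)).biUnion fun β _ => countable_scan θ β)
    have h4 : #A ≤ ℵ₀ := Cardinal.mk_le_aleph0_iff.2 hc.to_subtype
    rw [hAc, aleph_one_eq] at h4
    exact absurd h4 (not_le.2 (Order.lt_succ _))
  obtain ⟨δ₀, hδ₀⟩ : ∃ δ₀, ∀ δ ∈ ⋃ θ : W, {δ : K | ∀ i ∈ T, δ < i → ∃ β ∈ B i, rho δ β ≤ θ},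
      δ < δ₀ := by
    apply K_bdd_set
    refine (Cardinal.mk_iUnion_le _).trans ?_
    refine (mul_le_mul' mk_W.le (ciSup_le' fun θ => ?_ : _ ≤ ℵ₁)).trans ?_
    · exact (Cardinal.mk_le_aleph0_iff.2 (hΔ θ).to_subtype).trans (aleph0_le_aleph 1)
    · rw [Cardinal.mul_eq_self (aleph0_le_aleph 1)]
  refine ⟨δ₀, fun δ hδ hδδ => ?_⟩
  have h1 : ∀ θ : W, ∃ i ∈ T, δ < i ∧ ∀ β ∈ B i, θ < rho δ β := by
    intro θ
    by_contra hcon
    push Not at hcon
    exact absurd (hδ₀ δ (mem_iUnion.2 ⟨θ, hcon⟩)) (not_lt.2 hδδ.le)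
  choose i hiT hδi hρ using h1
  obtain ⟨m, hm⟩ := unbounded_fiber (fun θ => (B (i θ)).sup (wt δ))
  have hnext : ∀ θ : W, ∃ θ', θ < θ' ∧ (∀ β ∈ B (i θ), rho δ β < θ') ∧
      (B (i θ')).sup (wt δ) = m := by
    intro θ
    obtain ⟨b, hb⟩ := W_bdd_set (A := insert θ ((rho δ) '' (B (i θ))))
      (((Finset.countable_toSet _).image _).insert _)
    obtain ⟨θ', h2, h3⟩ := hm b
    refine ⟨θ', (hb θ (mem_insert _ _)).trans h2, fun β hβ => ?_, h3⟩
    exact (hb _ (mem_insert_of_mem _ ⟨β, hβ, rfl⟩)).trans h2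
  choose nx hnx1 hnx2 hnx3 using hnext
  let t : ℕ → W := fun k => Nat.rec (nx W0) (fun _ x => nx x) k
  have ht1 : ∀ k, t (k + 1) = nx (t k) := fun k => rfl
  have htm : ∀ k, (B (i (t k))).sup (wt δ) = m := by
    intro k
    cases k with
    | zero => exact hnx3 _
    | succ k => exact hnx3 _
  have htlt : StrictMono t := strictMono_nat_of_lt_succ fun k => hnx1 _
  have hρlt : ∀ k l, k < l → ∀ β ∈ B (i (t k)), rho δ β < t l := by
    intro k l hkl β hβ
    exact (hnx2 _ β hβ).trans_le (htlt.monotone (Nat.succ_le_of_lt hkl))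
  obtain ⟨θω, hθω⟩ := W_bdd t
  -- thresholds
  have hbot : ∃ i, i < δ := ⟨_, hδδ⟩
  have h2 : ∀ β : K, ∃ η < δ, δ ≤ β →
      ∀ γ, η < γ → γ < δ → ∀ σ, scan γ β σ = scan γ δ (scan δ β σ) := by
    intro β
    by_cases h : δ ≤ β
    · obtain ⟨η, hη, h3⟩ := scan_through hδ hbot β h
      exact ⟨η, hη, fun _ => h3⟩
    · exact ⟨δ₀, hδδ, fun h' => absurd h' h⟩
  choose ηf hηf1 hηf2 using h2
  obtain ⟨η₁, hη₁, h3⟩ := hδ (⋃ k, ηf '' (B (i (t k))))
    (Set.countable_iUnion fun k => (Finset.countable_toSet _).image _) (by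
      intro a ha
      obtain ⟨k, β, _, rfl⟩ := mem_iUnion.1 ha
      exact hηf1 β)
  obtain ⟨η₂, hη₂, h4⟩ := hδ _ (countable_e δ θω) (fun a h => h.1)
  refine ⟨max η₁ η₂, max_lt hη₁ hη₂, range (fun k => i (t k)), countable_range _, ?_, ?_, ?_⟩
  · rintro _ ⟨k, rfl⟩
    exact hiT _
  · rintro _ ⟨k, rfl⟩
    exact hδi _
  intro A hA
  have hx : ∀ γ ∈ A, θω < e δ (step γ δ) := by
    intro γ hγ
    by_contra hcon
    have h5 := step_mem (hA γ hγ).2
    have h6 := h4 (step γ δ) ⟨h5.2, not_lt.1 hcon⟩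
    exact absurd ((h5.1.trans_lt h6).trans_le (le_max_right η₁ η₂)) (not_lt.2 (hA γ hγ).1.le)
  set n' : K → ℕ := fun γ => (scan γ (step γ δ) (e δ (step γ δ), 0, δ)).2.1 with hn'
  set M := max m (A.sup n') with hM
  have hZ : (⋃ γ ∈ A, {x : W | x < e δ (step γ δ) ∧ eps (e δ (step γ δ)) x ≤ M}).Finite := by
    refine (Finset.finite_toSet A).biUnion fun γ _ => ?_
    refine Set.Finite.of_injOn (f := eps (e δ (step γ δ))) (t := Iic M) (fun x hx => hx.2) ?_
      (finite_Iic M)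
    exact (eps_inj _).mono fun x hx => hx.1
  obtain ⟨k, hk⟩ : ∃ k, ∀ β ∈ B (i (t k)),
      rho δ β ∉ ⋃ γ ∈ A, {x : W | x < e δ (step γ δ) ∧ eps (e δ (step γ δ)) x ≤ M} := by
    by_contra hcon
    push Not at hcon
    choose β hβ hβ2 using hcon
    have hinj : Function.Injective (fun k => rho δ (β k)) := by
      intro k l hkl
      simp only at hkl
      rcases lt_trichotomy k l with h | h | h
      · have h5 := hρlt k l h (β k) (hβ k)
        have h6 := hρ (t l) (β l) (hβ l)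
        exact absurd (hkl ▸ h5) (not_lt.2 h6.le)
      · exact h
      · have h5 := hρlt l k h (β l) (hβ l)
        have h6 := hρ (t k) (β k) (hβ k)
        exact absurd (hkl ▸ h5) (not_lt.2 h6.le)
    exact (Set.infinite_of_injective_forall_mem hinj hβ2) hZ
  refine ⟨i (t k), ⟨k, rfl⟩, fun γ hγ β hβ => ?_⟩
  have hδβ : δ ≤ β := (hδi _).le.trans (hB _ (hiT _) β hβ)
  have hγ1 : ηf β < γ := by
    have := h3 (ηf β) (mem_iUnion.2 ⟨k, β, hβ, rfl⟩)
    exact this.trans ((le_max_left _ _).trans_lt (hA γ hγ).1)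
  have hρx : rho δ β < e δ (step γ δ) :=
    ((hρlt k (k + 1) (Nat.lt_succ_self k) β hβ).trans (hθω (k + 1))).trans (hx γ hγ)
  have hbig : M < eps (e δ (step γ δ)) (rho δ β) := by
    by_contra hcon
    exact hk β hβ (mem_iUnion₂.2 ⟨γ, hγ, hρx, not_lt.1 hcon⟩)
  have hw : wt δ β ≤ m := by
    rw [← htm k]
    exact Finset.le_sup (f := wt δ) hβ
  have hn : n' γ ≤ A.sup n' := Finset.le_sup (f := n') hγ
  rw [node, hηf2 β hδβ γ hγ1 (hA γ hγ).2, scan_lt (hA γ hγ).2]
  have hupd : upd (scan δ β (W0, 0, β)) δ (e δ (step γ δ)) =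
      (e δ (step γ δ), eps (e δ (step γ δ)) (rho δ β), δ) := by
    unfold upd
    rw [if_pos (show (scan δ β (W0, 0, β)).1 < _ from hρx), if_pos]
    · rfl
    · exact (hw.trans (le_max_left _ _)).trans_lt hbig
  rw [hupd]
  exact scan_stable γ _ _ _ 0 _ δ (Nat.zero_le _) ((hn.trans (le_max_right _ _)).trans hbig.le)

end Pool.Agent.Helper78.Om2
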