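import Mathlib
import Pool.Agent.Helper78.Om2.Walk

/-!
# The colouring and the family of points `x ν : K → Bool`
-/

open Set Cardinal

namespace Pool.Agent.Helper78.Om2

/-! ### Separating functions -/

lemma exists_r : ∃ r : K → W → Bool, Function.Injective r := by
  have h : #K ≤ #(W → Bool) := by
    rw [mk_K, aleph_two_eq, Cardinal.mk_arrow]
    refine Order.succ_le_of_lt ?_
    simpa using Cardinal.cantor ℵ₁
  obtain ⟨g⟩ := (Cardinal.le_def _ _).1 h
  exact ⟨g, g.injective⟩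

/-- Pairwise distinct elements of `2 ^ ω₁` indexed by `ω₂`. -/
noncomputable def r : K → W → Bool := exists_r.choose

lemma r_inj : Function.Injective r := exists_r.choose_spec

lemma exists_rW : ∃ r : W → ℕ → Bool, Function.Injective r := by
  have h : #W ≤ #(ℕ → Bool) := by
    rw [mk_W, aleph_one_eq, Cardinal.mk_arrow]
    refine Order.succ_le_of_lt ?_
    simpa using Cardinal.cantor ℵ₀
  obtain ⟨g⟩ := (Cardinal.le_def _ _).1 h
  exact ⟨g, g.injective⟩

/-- Pairwise distinct elements of `2 ^ ω` indexed by `ω₁`. -/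
noncomputable def rW : W → ℕ → Bool := exists_rW.choose

lemma rW_inj : Function.Injective rW := exists_rW.choose_spec

/-- The trace of `r ν` on a finite set. -/
noncomputable def trace (G : Finset W) (ν : K) : Finset W := G.filter (fun w => r ν w = true)

/-! ### Codes -/

/-- Codes for finite patterns. -/
abbrev Γ : Type := Finset W × Finset (Finset W × Finset W)

instance : Infinite W := by
  rw [Cardinal.infinite_iff, mk_W]
  exact aleph0_le_aleph 1

lemma mk_finsetW : #(Finset W) = ℵ₁ := by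
  rw [Cardinal.mk_finset_of_infinite, mk_W]

lemma mk_Γ : #Γ ≤ ℵ₁ := by
  have h1 : #(Finset W × Finset W) = ℵ₁ := by
    simp only [Cardinal.mk_prod, Cardinal.lift_id, mk_finsetW]
    rw [Cardinal.mul_eq_self (aleph0_le_aleph 1)]
  have h2 : #(Finset (Finset W × Finset W)) = ℵ₁ := by
    rw [Cardinal.mk_finset_of_infinite, h1]
  simp only [Cardinal.mk_prod, Cardinal.lift_id, mk_finsetW, h2]
  rw [Cardinal.mul_eq_self (aleph0_le_aleph 1)]

lemma exists_h : ∃ h : K → Γ, ∀ χ, Stat {δ ∈ S | h δ = χ} := by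
  obtain ⟨h, hh⟩ := exists_split
  have h1 : #Γ ≤ #W := by rw [mk_W]; exact mk_Γ
  obtain ⟨g⟩ := (Cardinal.le_def _ _).1 h1
  refine ⟨fun δ => Function.invFun g (h δ), fun χ => (hh (g χ)).mono ?_⟩
  rintro δ ⟨h2, h3⟩
  refine ⟨h2, ?_⟩
  show Function.invFun g (h δ) = χ
  rw [h3]
  exact Function.leftInverse_invFun g.injective χ

/-- A colouring of `K` all whose fibres meet `S` in a stationary set. -/
noncomputable def h : K → Γ := exists_h.choose

lemma stat_h (χ : Γ) : Stat {δ ∈ S | h δ = χ} := exists_h.choose_spec χ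

/-- The data decoded from an index. -/
abbrev Data : Type := K × Finset (List Bool) × Finset K × K × W

instance : Infinite K := by
  rw [Cardinal.infinite_iff, mk_K]
  exact aleph0_le_aleph 2

lemma mk_Data : #(K × Data) = #K := by
  have h0 : ℵ₀ ≤ #K := Cardinal.infinite_iff.1 inferInstance
  have h1 : #(Finset (List Bool)) ≤ #K := Cardinal.mk_le_aleph0.trans h0
  have h2 : #(Finset K) ≤ #K := (Cardinal.mk_finset_of_infinite K).le
  have h3 : #W ≤ #K := by
    rw [mk_W, mk_K]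
    exact aleph_le_aleph.2 (by norm_num)
  apply le_antisymm
  · simp only [Cardinal.mk_prod, Cardinal.lift_id]
    calc _ ≤ #K * (#K * (#K * (#K * (#K * #K)))) := by gcongr
      _ = #K := by simp only [Cardinal.mul_eq_self h0]
  · exact Cardinal.mk_le_of_injective (f := fun k : K => ((k, Classical.arbitrary Data) :
      K × Data)) (fun a b hab => (Prod.mk.inj hab).1)

lemma exists_dec : ∃ dec : K → Data, ∀ t : Data, ∀ a : K, ∃ ν, a < ν ∧ dec ν = t := by
  obtain ⟨φ⟩ := Cardinal.eq.1 mk_Data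
  refine ⟨fun ν => (φ.symm ν).2, fun t a => ?_⟩
  by_contra hcon
  push Not at hcon
  have h1 : ∀ k : K, φ (k, t) ≤ a := by
    intro k
    by_contra h2
    exact hcon (φ (k, t)) (not_le.1 h2) (by simp)
  have h2 : #K ≤ #(Iic a) := Cardinal.mk_le_of_injective (f := fun k : K =>
    (⟨φ (k, t), h1 k⟩ : Iic a)) (fun x y hxy => by
      have := φ.injective (congrArg Subtype.val hxy)
      exact (Prod.mk.inj this).1)
  have h3 := (h2.trans (mk_Iic_K_le a)).trans_lt (Order.lt_succ _)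
  rw [← aleph_two_eq, ← mk_K] at h3
  exact lt_irrefl _ h3

/-- Decoding of an index. -/
noncomputable def dec : K → Data := exists_dec.choose

lemma dec_spec (t : Data) (a : K) : ∃ ν, a < ν ∧ dec ν = t := exists_dec.choose_spec t a

/-! ### Countable dense families on initial segments -/

/-- The prefix of length `m` of a sequence. -/
def pre (y : ℕ → Bool) (m : ℕ) : List Bool := (List.range m).map y

lemma pre_length (y : ℕ → Bool) (m : ℕ) : (pre y m).length = m := by simp [pre]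

lemma pre_eq {y z : ℕ → Bool} {m : ℕ} (h : pre y m = pre z m) : ∀ j < m, y j = z j := by
  intro j hj
  have := congrArg (fun l => l[j]?) h
  simpa [pre, hj] using this

open Classical in
/-- A function `K → Bool` with a countable parameter. -/
noncomputable def E (γ : K) (q : Finset (List Bool)) (α : K) : Bool :=
  decide (∃ l ∈ q, pre (rW (e γ α)) l.length = l)

lemma E_dense (γ : K) (F : Finset K) (s : K → Bool) :
    ∃ q, ∀ α ∈ F, α < γ → E γ q α = s α := by
  classical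
  -- a separating length
  have hsep : ∀ p : K × K, ∃ j : ℕ, p.1 < γ → p.2 < γ → p.1 ≠ p.2 →
      rW (e γ p.1) j ≠ rW (e γ p.2) j := by
    intro p
    by_cases hp : p.1 < γ ∧ p.2 < γ ∧ p.1 ≠ p.2
    · have h1 : e γ p.1 ≠ e γ p.2 := fun h => hp.2.2 (e_inj γ hp.1 hp.2.1 h)
      have h2 : rW (e γ p.1) ≠ rW (e γ p.2) := fun h => h1 (rW_inj h)
      obtain ⟨j, hj⟩ := Function.ne_iff.1 h2
      exact ⟨j, fun _ _ _ => hj⟩
    · exact ⟨0, fun h1 h2 h3 => absurd ⟨h1, h2, h3⟩ hp⟩
  choose j hj using hsep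
  set m := (F ×ˢ F).sup j + 1 with hm
  refine ⟨(F.filter (fun α => α < γ ∧ s α = true)).image (fun α => pre (rW (e γ α)) m),
    fun α hα hαγ => ?_⟩
  have hiff : (∃ l ∈ (F.filter (fun α => α < γ ∧ s α = true)).image
      (fun α => pre (rW (e γ α)) m), pre (rW (e γ α)) l.length = l) ↔ s α = true := by
    constructor
    · rintro ⟨l, hl, hl2⟩
      obtain ⟨β, hβ, rfl⟩ := Finset.mem_image.1 hl
      rw [Finset.mem_filter] at hβ
      rw [pre_length] at hl2
      by_cases hne : α = β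
      · rw [hne]; exact hβ.2.2
      · exfalso
        refine hj (α, β) hαγ hβ.2.1 hne (pre_eq hl2 _ ?_)
        rw [hm]
        exact Nat.lt_succ_of_le (Finset.le_sup (f := j) (Finset.mem_product.2 ⟨hα, hβ.1⟩))
    · intro h
      exact ⟨_, Finset.mem_image.2 ⟨α, Finset.mem_filter.2 ⟨hα, hαγ, h⟩, rfl⟩,
        by rw [pre_length]⟩
  unfold E
  by_cases h : s α = true
  · rw [h, decide_eq_true (hiff.2 h)]
  · rw [decide_eq_false (fun h' => h (hiff.1 h')), Bool.eq_false_iff.2 h]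

/-! ### The points -/

/-- The countable set of indices on which the coordinate `α` vanishes. -/
def Nset (α : K) : Set K :=
  {ξ | ξ < (dec α).2.2.2.1 ∧ e (dec α).2.2.2.1 ξ ≤ (dec α).2.2.2.2}

lemma countable_Nset (α : K) : (Nset α).Countable := countable_e _ _

open Classical in
/-- The colouring. -/
noncomputable def c (ν α : K) : Bool :=
  if ν ∈ Nset α then false else
    decide ((trace (h (node ν α)).1 ν, trace (h (node ν α)).1 α) ∈ (h (node ν α)).2)

open Classical in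
/-- The points of the space. -/
noncomputable def pt (ν α : K) : Bool :=
  if α ≤ ν then (if α < (dec ν).1 then E (dec ν).1 (dec ν).2.1 α else
    decide (α ∈ (dec ν).2.2.1)) else c ν α

/-- Points of the space with prescribed values. -/
lemma exists_pt (γ : K) (q : Finset (List Bool)) (F : Finset K) (s : K → Bool) :
    ∃ ν, (∀ α < γ, pt ν α = E γ q α) ∧ ∀ α ∈ F, γ ≤ α → pt ν α = s α := by
  classical
  obtain ⟨b, hb⟩ := K_bdd_countable (A := insert γ (F : Set K)) (F.countable_toSet.insert γ)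
  obtain ⟨ν, hν, hdec⟩ := dec_spec (γ, q, F.filter (fun α => s α = true), γ,
    Classical.arbitrary W) b
  refine ⟨ν, fun α hα => ?_, fun α hα hγ => ?_⟩
  · have h1 : α ≤ ν := (hα.trans ((hb γ (mem_insert _ _)).trans hν)).le
    simp only [pt, hdec, if_pos h1, if_pos hα]
  · have h1 : α ≤ ν := ((hb α (mem_insert_of_mem _ hα)).trans hν).le
    simp only [pt, hdec, if_pos h1, if_neg (not_lt.2 hγ), Finset.mem_filter, hα, true_and]
    cases s α <;> simp

/-- The least element of `K`. -/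
noncomputable def K0 : K := (wellFounded_lt (α := K)).min Set.univ Set.univ_nonempty

lemma K0_le (w : K) : K0 ≤ w :=
  not_lt.1 ((wellFounded_lt (α := K)).not_lt_min Set.univ (mem_univ w))

/-- The family of points is dense. -/
lemma pt_dense (F : Finset K) (s : K → Bool) : ∃ ν, ∀ α ∈ F, pt ν α = s α := by
  obtain ⟨ν, -, hν⟩ := exists_pt K0 ∅ F s
  exact ⟨ν, fun α hα => hν α hα (K0_le α)⟩

/-- Countably many points vanish simultaneously at some coordinate. -/
lemma exists_coord {N : Set K} (hN : N.Countable) : ∃ α, ∀ ν ∈ N, pt ν α = false := by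
  classical
  obtain ⟨δ, hδ⟩ := K_bdd_countable hN
  obtain ⟨w, hw⟩ := W_bdd_set (hN.image (e δ))
  obtain ⟨α, hα, hdec⟩ := dec_spec (δ, ∅, ∅, δ, w) δ
  refine ⟨α, fun ν hν => ?_⟩
  have h1 : ¬ α ≤ ν := not_le.2 ((hδ ν hν).trans hα)
  have h2 : ν ∈ Nset α := by
    simp only [Nset, hdec, mem_ofPred_eq]
    exact ⟨hδ ν hν, (hw _ ⟨ν, hν, rfl⟩).le⟩
  simp only [pt, if_neg h1, c, if_pos h2]

/-! ### Patterns -/

/-- Finite sets of indices are separated by finite traces. -/
lemma exists_trace (V : Finset K) : ∃ G : Finset W, ∀ u ∈ V, ∀ v ∈ V,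
    trace G u = trace G v → u = v := by
  classical
  have hsep : ∀ p : K × K, ∃ w : W, p.1 ≠ p.2 → r p.1 w ≠ r p.2 w := by
    intro p
    by_cases hp : p.1 = p.2
    · exact ⟨Classical.arbitrary W, fun h => absurd hp h⟩
    · obtain ⟨w, hw⟩ := Function.ne_iff.1 (fun h => hp (r_inj h))
      exact ⟨w, fun _ => hw⟩
  choose w hw using hsep
  refine ⟨(V ×ˢ V).image w, fun u hu v hv h => ?_⟩
  by_contra hne
  have h1 := hw (u, v) hne
  have hmem : w (u, v) ∈ (V ×ˢ V).image w :=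
    Finset.mem_image_of_mem _ (Finset.mem_product.2 ⟨hu, hv⟩)
  have h2 : w (u, v) ∈ trace ((V ×ˢ V).image w) u ↔ w (u, v) ∈ trace ((V ×ˢ V).image w) v := by
    rw [h]
  simp only [trace, Finset.mem_filter, hmem, true_and] at h2
  apply h1
  show r u (w (u, v)) = r v (w (u, v))
  exact Bool.eq_iff_iff.2 h2

/-- Every finite table is given by a code. -/
lemma exists_code (n m : ℕ) (a b : ℕ → K) : ∃ χ : Γ, ∀ l < n, ∀ k < m,
    ((trace χ.1 (a l), trace χ.1 (b k)) ∈ χ.2 ↔ pt (a l) (b k) = true) := by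
  classical
  obtain ⟨G, hG⟩ := exists_trace ((Finset.range n).image a ∪ (Finset.range m).image b)
  refine ⟨(G, ((Finset.range n ×ˢ Finset.range m).filter
    (fun p => pt (a p.1) (b p.2) = true)).image (fun p => (trace G (a p.1), trace G (b p.2)))),
    fun l hl k hk => ?_⟩
  have ha : ∀ l < n, a l ∈ (Finset.range n).image a ∪ (Finset.range m).image b := fun l hl =>
    Finset.mem_union_left _ (Finset.mem_image_of_mem _ (Finset.mem_range.2 hl))
  have hb : ∀ k < m, b k ∈ (Finset.range n).image a ∪ (Finset.range m).image b := fun k hk =>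
    Finset.mem_union_right _ (Finset.mem_image_of_mem _ (Finset.mem_range.2 hk))
  simp only [Finset.mem_image, Finset.mem_filter, Finset.mem_product, Finset.mem_range,
    Prod.mk.injEq, Prod.exists]
  constructor
  · rintro ⟨l', k', ⟨⟨hl', hk'⟩, h1⟩, h2, h3⟩
    rw [← hG _ (ha _ hl') _ (ha _ hl) h2, ← hG _ (hb _ hk') _ (hb _ hk) h3]
    exact h1
  · intro h1
    exact ⟨l, k, ⟨⟨hl, hk⟩, h1⟩, rfl, rfl⟩

/-- Uniformisation of finitely many functions on a stationary set. -/
lemma Stat.uniformize {T : Set K} (hT : Stat T) (f : K → ℕ → K) : ∀ n : ℕ,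
    ∃ T' ⊆ T, Stat T' ∧ ∀ l < n, (∃ ρ, ∀ i ∈ T', f i l = ρ ∧ ρ < i) ∨ (∀ i ∈ T', i ≤ f i l) := by
  classical
  intro n
  induction n with
  | zero => exact ⟨T, subset_rfl, hT, fun l hl => absurd hl (Nat.not_lt_zero l)⟩
  | succ n ih =>
    obtain ⟨T₁, h1, hs, h2⟩ := ih
    obtain ⟨t, ht⟩ := hs.exists_const (Θ := Bool)
      (Cardinal.mk_le_aleph0.trans (aleph0_le_aleph 1)) (fun i => decide (f i n < i))
    cases t with
    | true =>
      obtain ⟨ρ, hρ⟩ := ht.fodor (fun i => f i n) (fun i hi => of_decide_eq_true hi.2)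
      refine ⟨_, fun i hi => h1 hi.1.1, hρ, fun l hl => ?_⟩
      rcases Nat.lt_succ_iff_lt_or_eq.1 hl with hl | rfl
      · rcases h2 l hl with ⟨ρ', h3⟩ | h3
        · exact Or.inl ⟨ρ', fun i hi => h3 i hi.1.1⟩
        · exact Or.inr fun i hi => h3 i hi.1.1
      · refine Or.inl ⟨ρ, fun i hi => ⟨hi.2, ?_⟩⟩
        have h4 : f i l < i := of_decide_eq_true hi.1.2
        rwa [show f i l = ρ from hi.2] at h4
    | false =>
      refine ⟨_, fun i hi => h1 hi.1, ht, fun l hl => ?_⟩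
      rcases Nat.lt_succ_iff_lt_or_eq.1 hl with hl | rfl
      · rcases h2 l hl with ⟨ρ', h3⟩ | h3
        · exact Or.inl ⟨ρ', fun i hi => h3 i hi.1⟩
        · exact Or.inr fun i hi => h3 i hi.1
      · exact Or.inr fun i hi => not_lt.1 (of_decide_eq_false hi.2)

/-- **Key lemma.** -/
theorem key {T : Set K} (hT : Stat T) (n m : ℕ) (ν F : K → ℕ → K) :
    ∃ i ∈ T, ∃ j ∈ T, j < i ∧ ∀ l < n, ∀ k < m, pt (ν j l) (F i k) = pt (ν i l) (F i k) := by
  classical
  obtain ⟨T₁, hT₁, hs₁, hν⟩ := hT.uniformize ν n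
  obtain ⟨T₂, hT₂, hs₂, hF⟩ := hs₁.uniformize F m
  have hcode := fun i => exists_code n m (ν i) (F i)
  choose χ hχ using hcode
  obtain ⟨χ₀, hs₃⟩ := hs₂.exists_const mk_Γ χ
  let tabf : K → Fin n → Fin m → Bool := fun i l k => pt (ν i l) (F i k)
  let uf : K → Fin n → Finset W := fun i l => trace χ₀.1 (ν i l)
  obtain ⟨tab, hs₄⟩ := hs₃.exists_const (Θ := Fin n → Fin m → Bool)
    (Cardinal.mk_le_aleph0.trans (aleph0_le_aleph 1)) tabf
  obtain ⟨u, hs₅⟩ := hs₄.exists_const (Θ := Fin n → Finset W) (by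
    rw [Cardinal.mk_arrow]
    simp only [Cardinal.lift_id, mk_finsetW, Cardinal.mk_fin]
    exact Cardinal.power_nat_le (aleph0_le_aleph 1)) uf
  set T₅ := {i ∈ {i ∈ {i ∈ T₂ | χ i = χ₀} | tabf i = tab} | uf i = u} with hT₅
  -- the combinatorial theorem
  obtain ⟨δ₀, hδ₀⟩ := exists_node (T := T₅) (fun a => hs₅.exists_gt a)
    (fun i => ((Finset.range m).filter (fun k => i ≤ F i k)).image (F i)) (by
      intro i _ β hβ
      obtain ⟨k, hk, rfl⟩ := Finset.mem_image.1 hβ
      exact (Finset.mem_filter.1 hk).2)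
  -- choice of `δ`
  have hnext := fun a => hs₅.exists_gt a
  choose J hJT hJ using hnext
  have hb : ∀ a, ∃ b, J a < b ∧ ∀ l < n, ν (J a) l < b := by
    intro a
    obtain ⟨b, hb⟩ := K_bdd_countable
      (A := insert (J a) (((Finset.range n).image (ν (J a)) : Finset K) : Set K))
      ((Finset.countable_toSet _).insert _)
    refine ⟨b, hb _ (mem_insert _ _), fun l hl => hb _ (mem_insert_of_mem _ ?_)⟩
    exact Finset.mem_coe.2 (Finset.mem_image_of_mem _ (Finset.mem_range.2 hl))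
  choose g hg1 hg2 using hb
  obtain ⟨δ, ⟨⟨⟨hδS, hδχ⟩, hδδ⟩, hδg⟩, hδbot, -⟩ :=
    (((stat_h χ₀).inter_gt δ₀).inter_closed g) id
  obtain ⟨η, hη, T₀, hT₀c, hT₀T, hT₀δ, hT₀⟩ := hδ₀ δ hδS hδδ
  -- avoid the vanishing sets
  obtain ⟨η', hη', hav⟩ := hδS {ξ | ξ < δ ∧ ∃ i ∈ T₀, ∃ k < m, ξ ∈ Nset (F i k)} (by
    have hc : (⋃ i ∈ T₀, ⋃ k ∈ Iio m, Nset (F i k)).Countable :=
      hT₀c.biUnion fun i _ => (Set.to_countable (Iio m)).biUnion fun k _ => countable_Nset _
    refine hc.mono ?_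
    rintro ξ ⟨-, i, hi, k, hk, h1⟩
    exact mem_iUnion₂.2 ⟨i, hi, mem_iUnion₂.2 ⟨k, hk, h1⟩⟩) (fun a h => h.1)
  set a := max η η' with ha
  have haδ : a < δ := max_lt hη hη'
  set j := J a with hj
  have hjδ : j < δ := (hg1 a).trans (hδg a haδ)
  have hjT := hJT a
  obtain ⟨i, hiT₀, hnode⟩ := hT₀ (((Finset.range n).filter (fun l => j ≤ ν j l)).image (ν j)) (by
    intro γ hγ
    obtain ⟨l, hl, rfl⟩ := Finset.mem_image.1 hγ
    rw [Finset.mem_filter, Finset.mem_range] at hl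
    exact ⟨((le_max_left η η').trans_lt (hJ a)).trans_le hl.2,
      (hg2 a l hl.1).trans (hδg a haδ)⟩)
  have hiT : i ∈ T₅ := hT₀T hiT₀
  have hiδ := hT₀δ i hiT₀
  refine ⟨i, hT₁ (hT₂ hiT.1.1.1), j, hT₁ (hT₂ hjT.1.1.1), hjδ.trans hiδ, fun l hl k hk => ?_⟩
  rcases hν l hl with ⟨ρ, hρ⟩ | hν'
  · rw [(hρ j (hT₂ hjT.1.1.1)).1, (hρ i (hT₂ hiT.1.1.1)).1]
  rcases hF k hk with ⟨ρ, hρ⟩ | hF'
  · have h1 := congrFun (congrFun (hiT.1.2.trans hjT.1.2.symm) ⟨l, hl⟩) ⟨k, hk⟩
    simp only [tabf] at h1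
    rw [h1, (hρ j hjT.1.1.1).1, (hρ i hiT.1.1.1).1]
  · have h1 : j ≤ ν j l := hν' j (hT₂ hjT.1.1.1)
    have h2 : i ≤ F i k := hF' i hiT.1.1.1
    have hγA : ν j l ∈ ((Finset.range n).filter (fun l => j ≤ ν j l)).image (ν j) :=
      Finset.mem_image_of_mem _ (Finset.mem_filter.2 ⟨Finset.mem_range.2 hl, h1⟩)
    have hβB : F i k ∈ ((Finset.range m).filter (fun k => i ≤ F i k)).image (F i) :=
      Finset.mem_image_of_mem _ (Finset.mem_filter.2 ⟨Finset.mem_range.2 hk, h2⟩)
    have h3 := hnode _ hγA _ hβB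
    have h4 : ν j l < δ := (hg2 a l hl).trans (hδg a haδ)
    have h5 : ¬ F i k ≤ ν j l := not_le.2 ((h4.trans hiδ).trans_le h2)
    have h6 : ν j l ∉ Nset (F i k) := by
      intro h7
      have h8 := hav (ν j l) ⟨h4, i, hiT₀, k, hk, h7⟩
      exact absurd (((hJ a).trans_le h1).trans h8) (not_lt.2 (le_max_right η η'))
    have h7 : pt (ν j l) (F i k) = c (ν j l) (F i k) := by
      simp only [pt, if_neg h5]
    have h8 : trace χ₀.1 (ν j l) = trace χ₀.1 (ν i l) :=
      congrFun (hjT.2.trans hiT.2.symm) ⟨l, hl⟩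
    have h9 := hχ i l hl k hk
    rw [hiT.1.1.2] at h9
    rw [h7, c, if_neg h6, h3, hδχ, h8]
    exact Bool.eq_iff_iff.2 (by rw [decide_eq_true_iff]; exact h9)

end Pool.Agent.Helper78.Om2
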