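import Mathlib
import Pool.Agent.Helper78.Om2.Color

/-!
# The space
-/

open Set Cardinal Topology

namespace Pool.Agent.Helper78.Om2

/-- The space: a subspace of `2 ^ ω₂` of size at most `ω₂`. -/
abbrev X : Type := ↥(Set.range pt)

/-- The point with index `ν`. -/
noncomputable def P (ν : K) : X := ⟨pt ν, ν, rfl⟩

lemma P_surj (x : X) : ∃ ν, P ν = x := by
  obtain ⟨_, ν, rfl⟩ := x
  exact ⟨ν, rfl⟩

lemma nhds_X {x : X} {U : Set X} (hU : U ∈ 𝓝 x) :
    ∃ F : Finset K, ∀ y : X, (∀ α ∈ F, y.1 α = x.1 α) → y ∈ U := by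
  rw [nhds_subtype, Filter.mem_comap] at hU
  obtain ⟨V, hV, hVU⟩ := hU
  obtain ⟨V', hV'V, hV'o, hxV'⟩ := mem_nhds_iff.1 hV
  obtain ⟨F, u, hu, hF⟩ := isOpen_pi_iff.1 hV'o x.1 hxV'
  refine ⟨F, fun y hy => hVU (hV'V (hF ?_))⟩
  intro α hα
  rw [hy α hα]
  exact (hu α hα).2

lemma exists_enum {A : Type} [Nonempty A] (F : Finset A) :
    ∃ m : ℕ, ∃ g : ℕ → A, ∀ α ∈ F, ∃ k < m, g k = α := by
  classical
  refine ⟨F.toList.length, fun k => F.toList.getD k (Classical.arbitrary A), fun α hα => ?_⟩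
  obtain ⟨k, hk, h⟩ := List.getElem_of_mem (Finset.mem_toList.2 hα)
  refine ⟨k, hk, ?_⟩
  show F.toList.getD k (Classical.arbitrary A) = α
  rw [List.getD_eq_getElem _ _ hk, h]

/-- `f` depends only on the coordinates below `γ`. -/
def Dep (γ : K) (f : X → ℝ) : Prop := ∀ x y : X, (∀ α < γ, x.1 α = y.1 α) → f x = f y

lemma Dep.mono {γ γ' : K} {f : X → ℝ} (h : Dep γ f) (hγ : γ ≤ γ') : Dep γ' f :=
  fun x y hxy => h x y fun α hα => hxy α (hα.trans_le hγ)

/-- Every continuous function depends on the coordinates below some `γ`. -/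
theorem exists_dep {f : X → ℝ} (hf : Continuous f) : ∃ γ, Dep γ f := by
  classical
  by_contra hcon
  push Not at hcon
  have h1 : ∀ γ : K, ∃ x y : X, (∀ α < γ, x.1 α = y.1 α) ∧ f x < f y := by
    intro γ
    have h2 := hcon γ
    unfold Dep at h2
    push Not at h2
    obtain ⟨x, y, hxy, hne⟩ := h2
    rcases lt_or_gt_of_ne hne with h | h
    · exact ⟨x, y, hxy, h⟩
    · exact ⟨y, x, fun α hα => (hxy α hα).symm, h⟩
  choose x y hxy hlt using h1
  have h2 : ∀ γ : K, ∃ q : ℚ, f (x γ) < q ∧ (q : ℝ) < f (y γ) := fun γ =>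
    exists_rat_btwn (hlt γ)
  choose q hq1 hq2 using h2
  have h3 : ∀ γ : K, ∃ m : ℕ, ∃ g : ℕ → K,
      (∀ z : X, (∀ k < m, z.1 (g k) = (x γ).1 (g k)) → f z < q γ) ∧
      (∀ z : X, (∀ k < m, z.1 (g k) = (y γ).1 (g k)) → (q γ : ℝ) < f z) := by
    intro γ
    obtain ⟨F₁, hF₁⟩ := nhds_X (hf.continuousAt.preimage_mem_nhds (Iio_mem_nhds (hq1 γ)))
    obtain ⟨F₂, hF₂⟩ := nhds_X (hf.continuousAt.preimage_mem_nhds (Ioi_mem_nhds (hq2 γ)))
    obtain ⟨m, g, hg⟩ := exists_enum (F₁ ∪ F₂)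
    refine ⟨m, g, fun z hz => hF₁ z fun α hα => ?_, fun z hz => hF₂ z fun α hα => ?_⟩
    · obtain ⟨k, hk, rfl⟩ := hg α (Finset.mem_union_left _ hα)
      exact hz k hk
    · obtain ⟨k, hk, rfl⟩ := hg α (Finset.mem_union_right _ hα)
      exact hz k hk
  choose m g hg1 hg2 using h3
  have hc : ∀ {Θ : Type} [Countable Θ], #Θ ≤ ℵ₁ := fun {Θ} _ =>
    Cardinal.mk_le_aleph0.trans (aleph0_le_aleph 1)
  have hU : Stat (Set.univ : Set K) := stat_S.mono (subset_univ _)
  obtain ⟨⟨m₀, q₀⟩, hs₁⟩ := hU.exists_const hc (fun γ => (m γ, q γ))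
  obtain ⟨T₂, hT₂, hs₂, hkind⟩ := hs₁.uniformize g m₀
  let tabf : K → Fin m₀ → Bool := fun γ k => (x γ).1 (g γ k)
  obtain ⟨tab, hs₃⟩ := hs₂.exists_const hc tabf
  obtain ⟨i, hi, -⟩ := hs₃.exists_gt K0
  obtain ⟨b, hb⟩ := K_bdd_countable (A := ((Finset.range m₀).image (g i) : Finset K))
    (Finset.countable_toSet _)
  obtain ⟨j, hj, hbj⟩ := hs₃.exists_gt b
  have hij : ∀ k < m₀, g i k < j := fun k hk =>
    (hb _ (Finset.mem_coe.2 (Finset.mem_image_of_mem _ (Finset.mem_range.2 hk)))).trans hbj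
  have hmi : m i = m₀ ∧ q i = q₀ := Prod.mk.inj (hT₂ hi.1).2
  have hmj : m j = m₀ ∧ q j = q₀ := Prod.mk.inj (hT₂ hj.1).2
  obtain ⟨ν, hν⟩ := pt_dense ((Finset.range m₀).image (g i) ∪ (Finset.range m₀).image (g j))
    (fun α => if α ∈ (Finset.range m₀).image (g i) then (x i).1 α else (y j).1 α)
  have hz1 : f (P ν) < q i := by
    refine hg1 i _ fun k hk => ?_
    rw [hmi.1] at hk
    have hmem : g i k ∈ (Finset.range m₀).image (g i) :=
      Finset.mem_image_of_mem _ (Finset.mem_range.2 hk)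
    show pt ν (g i k) = _
    rw [hν _ (Finset.mem_union_left _ hmem), if_pos hmem]
  have hz2 : (q j : ℝ) < f (P ν) := by
    refine hg2 j _ fun k hk => ?_
    rw [hmj.1] at hk
    have hmem : g j k ∈ (Finset.range m₀).image (g j) :=
      Finset.mem_image_of_mem _ (Finset.mem_range.2 hk)
    show pt ν (g j k) = _
    rw [hν _ (Finset.mem_union_right _ hmem)]
    split_ifs with hmem'
    · obtain ⟨k', hk', heq⟩ := Finset.mem_image.1 hmem'
      rw [Finset.mem_range] at hk'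
      have hlt' : g j k < j := heq ▸ hij k' hk'
      rcases hkind k hk with ⟨ρ, hρ⟩ | hρ
      · have e1 : g j k = g i k := (hρ j hj.1).1.trans (hρ i hi.1).1.symm
        have e2 : (x i).1 (g i k) = (x j).1 (g j k) :=
          congrFun (hi.2.trans hj.2.symm) ⟨k, hk⟩
        rw [← hxy j _ hlt', ← e2, e1]
      · exact absurd hlt' (not_lt.2 (hρ j hj.1))
    · rfl
  rw [hmi.2] at hz1
  rw [hmj.2] at hz2
  exact lt_asymm hz1 hz2

/-- All members of a discrete set of continuous functions depend on the coordinates below one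
common `γ`. -/
theorem exists_dep_discrete (D : Set (X → ℝ)) (hD : ∀ d ∈ D, Continuous d)
    (hdisc : ∀ d ∈ D, ∃ U : Set (X → ℝ), IsOpen U ∧ U ∩ D = {d}) :
    ∃ γ, ∀ d ∈ D, Dep γ d := by
  classical
  by_contra hcon
  push Not at hcon
  choose d hdD hdγ using hcon
  have h1 : ∀ i, ∃ γ, Dep γ (d i) := fun i => exists_dep (hD _ (hdD i))
  choose G hG using h1
  have hU : Stat (Set.univ : Set K) := stat_S.mono (subset_univ _)
  have hT := hU.inter_closed G
  set T := {δ ∈ (Set.univ : Set K) | ∀ i < δ, G i < δ} with hTdef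
  have hinj : ∀ i ∈ T, ∀ j ∈ T, j < i → d i ≠ d j := by
    intro i hi j _ hji heq
    apply hdγ i
    rw [heq]
    exact (hG j).mono (hi.2 j hji).le
  -- isolating neighbourhoods
  have h2 : ∀ i, ∃ n : ℕ, ∃ p : ℕ → K, ∃ a b : ℕ → ℚ,
      (∀ l < n, (a l : ℝ) < d i (P (p l)) ∧ d i (P (p l)) < b l) ∧
      ∀ d' ∈ D, (∀ l < n, (a l : ℝ) < d' (P (p l)) ∧ d' (P (p l)) < b l) → d' = d i := by
    intro i
    obtain ⟨U, hUo, hUD⟩ := hdisc (d i) (hdD i)
    have hdU : d i ∈ U := by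
      have : d i ∈ U ∩ D := by rw [hUD]; rfl
      exact this.1
    obtain ⟨I, u, hu, hI⟩ := isOpen_pi_iff.1 hUo (d i) hdU
    have h3 : ∀ x : X, ∃ a b : ℚ, (a : ℝ) < d i x ∧ d i x < b ∧ (x ∈ I → Ioo (a : ℝ) b ⊆ u x) := by
      intro x
      by_cases hx : x ∈ I
      · obtain ⟨ε, hε, hball⟩ := Metric.isOpen_iff.1 (hu x hx).1 _ (hu x hx).2
        obtain ⟨a, ha1, ha2⟩ := exists_rat_btwn (show d i x - ε < d i x by linarith)
        obtain ⟨b, hb1, hb2⟩ := exists_rat_btwn (show d i x < d i x + ε by linarith)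
        refine ⟨a, b, ha2, hb1, fun _ z hz => hball ?_⟩
        rw [Metric.mem_ball, Real.dist_eq, abs_lt]
        constructor <;> [linarith [hz.1]; linarith [hz.2]]
      · obtain ⟨a, ha1, ha2⟩ := exists_rat_btwn (show d i x - 1 < d i x by linarith)
        obtain ⟨b, hb1, hb2⟩ := exists_rat_btwn (show d i x < d i x + 1 by linarith)
        exact ⟨a, b, ha2, hb1, fun h => absurd h hx⟩
    choose a b ha hb hab using h3
    have : Nonempty X := ⟨P K0⟩
    obtain ⟨n, y, hy⟩ := exists_enum I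
    have hp : ∀ l, ∃ ν, P ν = y l := fun l => P_surj (y l)
    choose p hp using hp
    refine ⟨n, p, fun l => a (y l), fun l => b (y l), fun l _ => ?_, fun d' hd' h4 => ?_⟩
    · rw [hp]
      exact ⟨ha _, hb _⟩
    · have h5 : d' ∈ U := by
        apply hI
        intro x hx
        obtain ⟨l, hl, rfl⟩ := hy x hx
        have h6 := h4 l hl
        rw [hp] at h6
        exact hab _ hx h6
      have h6 : d' ∈ U ∩ D := ⟨h5, hd'⟩
      rw [hUD] at h6
      exact h6
  choose n p a b hab hiso using h2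
  -- supports
  have h3 : ∀ i, ∃ m : ℕ, ∃ g : ℕ → K, ∀ l < n i, ∀ z : X,
      (∀ k < m, z.1 (g k) = pt (p i l) (g k)) → (a i l : ℝ) < d i z ∧ d i z < b i l := by
    intro i
    have h4 : ∀ l, ∃ F : Finset K, l < n i → ∀ z : X, (∀ α ∈ F, z.1 α = pt (p i l) α) →
        (a i l : ℝ) < d i z ∧ d i z < b i l := by
      intro l
      by_cases hl : l < n i
      · obtain ⟨F, hF⟩ := nhds_X (((hD _ (hdD i)).continuousAt (x := P (p i l))).preimage_mem_nhds
          (Ioo_mem_nhds (hab i l hl).1 (hab i l hl).2))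
        exact ⟨F, fun _ z hz => hF z hz⟩
      · exact ⟨∅, fun h => absurd h hl⟩
    choose F hF using h4
    obtain ⟨m, g, hg⟩ := exists_enum ((Finset.range (n i)).biUnion F)
    refine ⟨m, g, fun l hl z hz => hF l hl z fun α hα => ?_⟩
    obtain ⟨k, hk, rfl⟩ := hg α (Finset.mem_biUnion.2 ⟨l, Finset.mem_range.2 hl, hα⟩)
    exact hz k hk
  choose m g hg using h3
  have hc : ∀ {Θ : Type} [Countable Θ], #Θ ≤ ℵ₁ := fun {Θ} _ =>
    Cardinal.mk_le_aleph0.trans (aleph0_le_aleph 1)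
  obtain ⟨⟨n₀, m₀⟩, hs₁⟩ := hT.exists_const hc (fun i => (n i, m i))
  let abf : K → Fin n₀ → ℚ × ℚ := fun i l => (a i l, b i l)
  obtain ⟨ab₀, hs₂⟩ := hs₁.exists_const hc abf
  obtain ⟨i, hi, j, hj, hji, hkey⟩ := key hs₂ n₀ m₀ p g
  apply hinj i hi.1.1 j hj.1.1 hji
  have hni : n i = n₀ ∧ m i = m₀ := Prod.mk.inj hi.1.2
  have hnj : n j = n₀ ∧ m j = m₀ := Prod.mk.inj hj.1.2
  refine hiso j (d i) (hdD i) fun l hl => ?_
  rw [hnj.1] at hl
  have h4 := hg i l (hni.1 ▸ hl) (P (p j l)) (fun k hk => hkey l hl k (hni.2 ▸ hk))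
  have h5 : abf i ⟨l, hl⟩ = abf j ⟨l, hl⟩ := congrFun (hi.2.trans hj.2.symm) ⟨l, hl⟩
  have h6 : a i l = a j l ∧ b i l = b j l := Prod.mk.inj h5
  rw [← h6.1, ← h6.2]
  exact h4

/-- A countable subset of `X` decides equality of continuous functions depending on the
coordinates below `γ`. -/
theorem exists_countable (γ : K) : ∃ z : Finset (List Bool) → X, ∀ f g : X → ℝ, Continuous f →
    Continuous g → Dep γ f → Dep γ g → (∀ q, f (z q) = g (z q)) → f = g := by
  classical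
  have h1 : ∀ q, ∃ ν, ∀ α < γ, pt ν α = E γ q α := fun q => by
    obtain ⟨ν, hν, -⟩ := exists_pt γ q ∅ (fun _ => true)
    exact ⟨ν, hν⟩
  choose ν hν using h1
  refine ⟨fun q => P (ν q), fun f g hf hg hfγ hgγ hfg => ?_⟩
  by_contra hne
  obtain ⟨x, hx⟩ := Function.ne_iff.1 hne
  have hopen : IsOpen {y : X | f y ≠ g y} := isOpen_ne_fun hf hg
  obtain ⟨F, hF⟩ := nhds_X (hopen.mem_nhds hx)
  obtain ⟨q, hq⟩ := E_dense γ F x.1
  obtain ⟨μ, hμ1, hμ2⟩ := exists_pt γ q F x.1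
  have h2 : f (P μ) ≠ g (P μ) := by
    refine hF (P μ) fun α hα => ?_
    show pt μ α = x.1 α
    rcases lt_or_ge α γ with h | h
    · rw [hμ1 α h, hq α hα h]
    · exact hμ2 α hα h
  have h3 : ∀ α < γ, (P μ).1 α = (P (ν q)).1 α := fun α hα =>
    (hμ1 α hα).trans (hν q α hα).symm
  apply h2
  rw [hfγ _ _ h3, hgγ _ _ h3]
  exact hfg q

/-- The space is not separable. -/
theorem not_separable : ¬ TopologicalSpace.SeparableSpace X := by
  intro hsep
  obtain ⟨B, hBc, hBd⟩ := hsep.exists_countable_dense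
  choose ν hν using P_surj
  obtain ⟨α, hα⟩ := exists_coord (hBc.image ν)
  have hopen : IsOpen {x : X | x.1 α = true} := by
    have h1 : Continuous fun x : X => x.1 α := (continuous_apply α).comp continuous_subtype_val
    exact (isOpen_discrete {true}).preimage h1
  obtain ⟨μ, hμ⟩ := pt_dense {α} (fun _ => true)
  obtain ⟨x, hxB, hx⟩ := hBd.exists_mem_open hopen
    ⟨P μ, hμ α (Finset.mem_singleton_self α)⟩
  have h2 : pt (ν x) α = false := hα _ ⟨x, hxB, rfl⟩
  have h3 : pt (ν x) α = x.1 α := by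
    conv_rhs => rw [← hν x]
    rfl
  have h4 : x.1 α = true := hx
  rw [← h3, h2] at h4
  exact Bool.false_ne_true h4

/-- Closures of discrete subspaces of `C_p(X)` have countable pseudocharacter. -/
theorem closure_discrete (D : Set (X → ℝ)) (hD : ∀ d ∈ D, Continuous d)
    (hdisc : ∀ d ∈ D, ∃ U : Set (X → ℝ), IsOpen U ∧ U ∩ D = {d}) (f : X → ℝ)
    (hf : f ∈ closure D) (hfc : Continuous f) :
    ∃ 𝒰 : Set (Set (X → ℝ)), 𝒰.Countable ∧ (∀ U ∈ 𝒰, IsOpen U ∧ f ∈ U) ∧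
      ⋂₀ 𝒰 ∩ {g | g ∈ closure D ∧ Continuous g} = {f} := by
  obtain ⟨γ, hγ⟩ := exists_dep_discrete D hD hdisc
  obtain ⟨z, hz⟩ := exists_countable γ
  have hcl : ∀ g ∈ closure D, Dep γ g := by
    intro g hg x y hxy
    have hclosed : IsClosed {g : X → ℝ | g x = g y} :=
      isClosed_eq (continuous_apply x) (continuous_apply y)
    exact closure_minimal (fun d hd => hγ d hd x y hxy) hclosed hg
  refine ⟨range (fun p : Finset (List Bool) × ℕ =>
    {g : X → ℝ | |g (z p.1) - f (z p.1)| < 1 / ((p.2 : ℝ) + 1)}), countable_range _, ?_, ?_⟩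
  · rintro _ ⟨p, rfl⟩
    constructor
    · exact isOpen_lt (by fun_prop) continuous_const
    · show |f (z p.1) - f (z p.1)| < _
      rw [sub_self, abs_zero]
      positivity
  · ext g
    simp only [mem_inter_iff, mem_sInter, mem_range, forall_exists_index,
      forall_apply_eq_imp_iff, mem_singleton_iff]
    constructor
    · rintro ⟨h1, h2, h3⟩
      refine hz g f h3 hfc (hcl g h2) (hcl f hf) fun q => ?_
      by_contra hne
      have hpos : 0 < |g (z q) - f (z q)| := abs_pos.2 (sub_ne_zero.2 hne)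
      obtain ⟨n, hn⟩ := exists_nat_one_div_lt hpos
      have h4 := h1 (q, n)
      exact lt_asymm hn h4
    · rintro rfl
      refine ⟨fun p => ?_, hf, hfc⟩
      show |g (z p.1) - g (z p.1)| < _
      rw [sub_self, abs_zero]
      positivity

end Pool.Agent.Helper78.Om2
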